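import Mathlib.Combinatorics.SimpleGraph.Acyclic
import Mathlib.Data.Set.Card
import Mathlib.Order.Lattice.Nat

/-!
# Tree-decompositions and treewidth
-/

namespace Pool.Agent.TW81

/-- A tree-decomposition of `G`: a finite tree `T` with a bag for each node, such that the two ends
of each edge of `G` lie in a common bag and, for each vertex `v`, the nodes whose bags contain `v`
induce a nonempty subtree of `T`. -/
structure TreeDecomp {V : Type} (G : SimpleGraph V) where
  ι : Type
  fin : Finite ι
  T : SimpleGraph ι
  isTree : T.IsTree
  bag : ι → Finset V
  edge_mem : ∀ u v, G.Adj u v → ∃ x, u ∈ bag x ∧ v ∈ bag x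
  subtree : ∀ v, (T.induce {x | v ∈ bag x}).Connected

/-- The width of a tree-decomposition: the largest size of a bag, minus one. -/
noncomputable def TreeDecomp.width {V : Type} {G : SimpleGraph V} (D : TreeDecomp G) : ℕ :=
  (⨆ x, (D.bag x).card) - 1

/-- The treewidth of a graph: the least width of a tree-decomposition. -/
noncomputable def treewidth {V : Type} (G : SimpleGraph V) : ℕ :=
  sInf {k | ∃ D : TreeDecomp G, D.width = k}

end Pool.Agent.TW81
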