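import Pool.Agent.Lib_MP_888b70_co.Star

/-!
# Tree-decompositions of graphs of maximum degree two
-/

set_option linter.unusedSectionVars false
set_option linter.unusedVariables false

namespace Pool.Agent.TW81

/-- There is a rooted tree-decomposition of `G[S]` with bags of size at most `k`. -/
def HasRTD {V : Type} (G : SimpleGraph V) (S : Finset V) (k : ℕ) : Prop :=
  ∃ D : RTD G S, ∀ z, (D.bag z).card ≤ k

variable {V : Type} [DecidableEq V] {G : SimpleGraph V} {S : Finset V}

theorem hasRTD_single (G : SimpleGraph V) (S : Finset V) : HasRTD G S S.card := by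
  refine ⟨⟨Unit, inferInstance, ⟨(), fun z => z, fun _ => 0, fun z hz => absurd rfl hz⟩,
    fun _ => S, fun _ => subset_rfl, fun v hv => ⟨(), hv⟩, fun u hu v hv _ => ⟨(), hu, hv⟩,
    fun v z _ z' _ _ _ => rfl⟩, fun _ => le_rfl⟩

theorem HasRTD.mono {k k' : ℕ} (h : HasRTD G S k) (hk : k ≤ k') : HasRTD G S k' := by
  obtain ⟨D, hD⟩ := h
  exact ⟨D, fun z => (hD z).trans hk⟩

theorem HasRTD.restrict {k : ℕ} (h : HasRTD G S k) {S' : Finset V} (hS : S' ⊆ S) :
    HasRTD G S' k := by
  obtain ⟨D, hD⟩ := h
  refine ⟨⟨D.ι, D.fin, D.R, fun z => D.bag z ∩ S', fun z => Finset.inter_subset_right,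
    fun v hv => ?_, fun u hu v hv hadj => ?_, fun v z hz z' hz' h1 h2 => ?_⟩,
    fun z => (Finset.card_le_card Finset.inter_subset_left).trans (hD z)⟩
  · obtain ⟨z, hz⟩ := D.cover v (hS hv)
    exact ⟨z, Finset.mem_inter.2 ⟨hz, hv⟩⟩
  · obtain ⟨z, hz, hz'⟩ := D.edge u (hS hu) v (hS hv) hadj
    exact ⟨z, Finset.mem_inter.2 ⟨hz, hu⟩, Finset.mem_inter.2 ⟨hz', hv⟩⟩
  · have a := Finset.mem_inter.1 hz
    have b := Finset.mem_inter.1 hz'
    refine D.top v z a.1 z' b.1 ?_ ?_
    · exact h1.imp id fun h h' => h (Finset.mem_inter.2 ⟨h', a.2⟩)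
    · exact h2.imp id fun h h' => h (Finset.mem_inter.2 ⟨h', a.2⟩)

theorem HasRTD.add {k : ℕ} (h : HasRTD G S k) (P : Finset V) :
    HasRTD G (S ∪ P) (k + P.card) := by
  obtain ⟨D, hD⟩ := h
  have hex : ∀ v ∈ S ∪ P, ∃ z, v ∈ D.bag z ∪ P := by
    intro v hv
    rcases Finset.mem_union.1 hv with hv | hv
    · obtain ⟨z, hz⟩ := D.cover v hv
      exact ⟨z, Finset.mem_union_left _ hz⟩
    · exact ⟨D.R.root, Finset.mem_union_right _ hv⟩
  refine ⟨⟨D.ι, D.fin, D.R, fun z => D.bag z ∪ P,
    fun z => Finset.union_subset_union_left (D.sub z), hex, fun u hu v hv hadj => ?_,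
    fun v z hz z' hz' h1 h2 => ?_⟩,
    fun z => (Finset.card_union_le _ _).trans (Nat.add_le_add_right (hD z) _)⟩
  · by_cases h1 : u ∈ P
    · obtain ⟨z, hz⟩ := hex v hv
      exact ⟨z, Finset.mem_union_right _ h1, hz⟩
    · by_cases h2 : v ∈ P
      · obtain ⟨z, hz⟩ := hex u hu
        exact ⟨z, hz, Finset.mem_union_right _ h2⟩
      · have h3 : u ∈ S := (Finset.mem_union.1 hu).resolve_right h1
        have h4 : v ∈ S := (Finset.mem_union.1 hv).resolve_right h2
        obtain ⟨z, hz, hz'⟩ := D.edge u h3 v h4 hadj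
        exact ⟨z, Finset.mem_union_left _ hz, Finset.mem_union_left _ hz'⟩
  · by_cases h3 : v ∈ P
    · have a : z = D.R.root := h1.resolve_right fun h => h (Finset.mem_union_right _ h3)
      have b : z' = D.R.root := h2.resolve_right fun h => h (Finset.mem_union_right _ h3)
      rw [a, b]
    · have a : v ∈ D.bag z := (Finset.mem_union.1 hz).resolve_right h3
      have b : v ∈ D.bag z' := (Finset.mem_union.1 hz').resolve_right h3
      refine D.top v z a z' b ?_ ?_
      · exact h1.imp id fun h h' => h (Finset.mem_union_left _ h')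
      · exact h2.imp id fun h h' => h (Finset.mem_union_left _ h')

/-- Adding a leaf. -/
theorem HasRTD.leaf {k : ℕ} {G' : SimpleGraph V} {v : V} {N : Finset V} (hv : v ∈ S)
    (hN : ∀ u ∈ S, G.Adj v u → u ∈ N) (hNS : N ⊆ S.erase v)
    (hG : ∀ a b, a ≠ b → G.Adj a b → G'.Adj a b)
    (D : RTD G' (S.erase v)) (hD : ∀ z, (D.bag z).card ≤ k) (hNk : N.card + 1 ≤ k) (z₀ : D.ι)
    (hz₀ : N ⊆ D.bag z₀) : HasRTD G S k := by
  have := D.fin
  have hvN : v ∉ N := fun h => (Finset.mem_erase.1 (hNS h)).1 rfl
  have hvD : ∀ z, v ∉ D.bag z := fun z h => (Finset.mem_erase.1 (D.sub z h)).1 rfl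
  let R : RT (Option D.ι) :=
    { root := some D.R.root
      par := fun z => match z with
        | none => some z₀
        | some z => some (D.R.par z)
      rk := fun z => match z with
        | none => D.R.rk z₀ + 1
        | some z => D.R.rk z
      lt := by
        intro z hz
        match z, hz with
        | none, _ => exact Nat.lt_succ_self _
        | some z, hz => exact D.R.lt z fun h => hz (by rw [h]) }
  let bag : Option D.ι → Finset V := fun z => match z with
    | none => insert v N
    | some z => D.bag z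
  refine ⟨⟨Option D.ι, inferInstance, R, bag, fun z => ?_, fun u hu => ?_,
    fun a ha b hb hadj => ?_, fun u => ?_⟩, fun z => ?_⟩
  · match z with
    | none => exact Finset.insert_subset hv (hNS.trans (Finset.erase_subset _ _))
    | some z => exact (D.sub z).trans (Finset.erase_subset _ _)
  · by_cases h : u = v
    · exact ⟨none, by rw [h]; exact Finset.mem_insert_self _ _⟩
    · obtain ⟨z, hz⟩ := D.cover u (Finset.mem_erase.2 ⟨h, hu⟩)
      exact ⟨some z, hz⟩
  · by_cases h1 : a = v
    · subst h1
      exact ⟨none, Finset.mem_insert_self _ _, Finset.mem_insert_of_mem (hN b hb hadj)⟩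
    · by_cases h2 : b = v
      · subst h2
        exact ⟨none, Finset.mem_insert_of_mem (hN a ha hadj.symm), Finset.mem_insert_self _ _⟩
      · obtain ⟨z, hz, hz'⟩ := D.edge a (Finset.mem_erase.2 ⟨h1, ha⟩) b
          (Finset.mem_erase.2 ⟨h2, hb⟩) (hG a b hadj.ne hadj)
        exact ⟨some z, hz, hz'⟩
  · by_cases h : u = v
    · subst h
      have key : ∀ z, u ∈ bag z → z = none := by
        intro z hz
        match z, hz with
        | none, _ => rfl
        | some z, hz => exact absurd hz (hvD z)
      intro z hz z' hz' _ _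
      rw [key z hz, key z' hz']
    · have key : ∀ z, u ∈ bag z → (z = R.root ∨ R.par z ∉ {z | u ∈ bag z}) →
          ∃ z₁, z = some z₁ ∧ u ∈ D.bag z₁ ∧ (z₁ = D.R.root ∨ u ∉ D.bag (D.R.par z₁)) := by
        intro z hz ht
        match z, hz, ht with
        | none, hz, ht =>
          have hu : u ∈ N := (Finset.mem_insert.1 hz).resolve_left h
          rcases ht with ht | ht
          · exact absurd ht (by simp [R])
          · exact absurd (hz₀ hu) ht
        | some z, hz, ht =>
          refine ⟨z, rfl, hz, ?_⟩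
          rcases ht with ht | ht
          · exact Or.inl (Option.some.inj ht)
          · exact Or.inr ht
      intro z hz z' hz' h1 h2
      obtain ⟨z₁, rfl, a1, a2⟩ := key z hz h1
      obtain ⟨z₁', rfl, b1, b2⟩ := key z' hz' h2
      rw [D.top u z₁ a1 z₁' b1 a2 b2]
  · match z with
    | none =>
      show (insert v N).card ≤ k
      rw [Finset.card_insert_of_notMem hvN]
      exact hNk
    | some z => exact hD z

/-- Graphs of maximum degree two have tree-decompositions with bags of size three. -/
theorem hasRTD_low (n : ℕ) : ∀ (G : SimpleGraph V) [DecidableRel G.Adj] (S : Finset V),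
    S.card = n → (∀ v ∈ S, (S.filter fun u => G.Adj v u).card ≤ 2) → HasRTD G S 3 := by
  classical
  induction n with
  | zero =>
    intro G _ S hS _
    exact (hasRTD_single G S).mono (by omega)
  | succ n ih =>
    intro G _ S hS hdeg
    obtain ⟨v, hv⟩ := Finset.card_pos.1 (show 0 < S.card by omega)
    set N := S.filter fun u => G.Adj v u with hN
    have hNcard : N.card ≤ 2 := hdeg v hv
    have hNS : N ⊆ S.erase v := by
      intro u hu
      have := Finset.mem_filter.1 hu
      exact Finset.mem_erase.2 ⟨this.2.ne', this.1⟩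
    let G' : SimpleGraph V :=
      { Adj := fun a b => a ≠ b ∧ (G.Adj a b ∨ (a ∈ N ∧ b ∈ N))
        symm := ⟨fun a b h => ⟨h.1.symm, h.2.imp (fun h => h.symm) fun h => ⟨h.2, h.1⟩⟩⟩
        loopless := ⟨fun a h => h.1 rfl⟩ }
    have hdeg' : ∀ a ∈ S.erase v, ((S.erase v).filter fun u => G'.Adj a u).card ≤ 2 := by
      intro a ha
      have ha' := Finset.mem_erase.1 ha
      by_cases haN : a ∈ N
      · have hsub : ((S.erase v).filter fun u => G'.Adj a u) ⊆
            ((S.filter fun u => G.Adj a u).erase v) ∪ (N.erase a) := by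
          intro u hu
          obtain ⟨h1, h2, h3⟩ := Finset.mem_filter.1 hu
          have h1' := Finset.mem_erase.1 h1
          rcases h3 with h3 | h3
          · exact Finset.mem_union_left _ (Finset.mem_erase.2 ⟨h1'.1,
              Finset.mem_filter.2 ⟨h1'.2, h3⟩⟩)
          · exact Finset.mem_union_right _ (Finset.mem_erase.2 ⟨h2.symm, h3.2⟩)
        have hva : v ∈ S.filter fun u => G.Adj a u :=
          Finset.mem_filter.2 ⟨hv, (Finset.mem_filter.1 haN).2.symm⟩
        have h1 := Finset.card_le_card hsub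
        have h2 := Finset.card_union_le ((S.filter fun u => G.Adj a u).erase v) (N.erase a)
        rw [Finset.card_erase_of_mem hva, Finset.card_erase_of_mem haN] at h2
        have h3 := hdeg a ha'.2
        omega
      · have hsub : ((S.erase v).filter fun u => G'.Adj a u) ⊆ (S.filter fun u => G.Adj a u) := by
          intro u hu
          obtain ⟨h1, h2, h3⟩ := Finset.mem_filter.1 hu
          rcases h3 with h3 | h3
          · exact Finset.mem_filter.2 ⟨(Finset.mem_erase.1 h1).2, h3⟩
          · exact absurd h3.1 haN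
        exact (Finset.card_le_card hsub).trans (hdeg a ha'.2)
    obtain ⟨D, hD⟩ := ih G' (S.erase v) (by rw [Finset.card_erase_of_mem hv]; omega) hdeg'
    obtain ⟨z₀, hz₀⟩ : ∃ z₀, N ⊆ D.bag z₀ := by
      have hcases : N.card = 0 ∨ N.card = 1 ∨ N.card = 2 := by omega
      rcases hcases with h | h | h
      · rw [Finset.card_eq_zero] at h
        exact ⟨D.R.root, by rw [h]; exact Finset.empty_subset _⟩
      · obtain ⟨a, ha⟩ := Finset.card_eq_one.1 h
        obtain ⟨z, hz⟩ := D.cover a (hNS (by rw [ha]; exact Finset.mem_singleton_self _))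
        exact ⟨z, by rw [ha]; exact Finset.singleton_subset_iff.2 hz⟩
      · obtain ⟨a, b, hab, hN2⟩ := Finset.card_eq_two.1 h
        have ha : a ∈ N := by rw [hN2]; simp
        have hb : b ∈ N := by rw [hN2]; simp
        obtain ⟨z, h1, h2⟩ := D.edge a (hNS ha) b (hNS hb) ⟨hab, Or.inr ⟨ha, hb⟩⟩
        refine ⟨z, ?_⟩
        rw [hN2]
        intro c hc
        rcases Finset.mem_insert.1 hc with rfl | hc
        · exact h1
        · rw [Finset.mem_singleton.1 hc]; exact h2
    exact HasRTD.leaf (G' := G') (N := N) hv (fun u hu h => Finset.mem_filter.2 ⟨hu, h⟩) hNS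
      (fun a b hab h => ⟨hab, Or.inl h⟩) D hD (by omega) z₀ hz₀

end Pool.Agent.TW81
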