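import Pool.Agent.Lib_MP_888b70_co.Pmc
import Pool.Agent.Lib_MP_888b70_co.Low
import Mathlib.Order.Preorder.Finite

/-!
# Optimal tree-decompositions whose bags have small treewidth
-/

set_option linter.unusedSectionVars false
set_option linter.unusedVariables false

namespace Pool.Agent.TW81

open Classical in
/-- The neighbours in `B`. -/
noncomputable def nb {V : Type} (G : SimpleGraph V) (B : Finset V) (v : V) : Finset V :=
  B.filter fun u => G.Adj v u

section

variable {V : Type} [Fintype V] {G : SimpleGraph V} {B : Finset V}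

theorem mem_nb {v u : V} : u ∈ nb G B v ↔ u ∈ B ∧ G.Adj v u := by simp [nb]

theorem card_nb (hdeg : ∀ v, (G.neighborSet v).ncard ≤ 4) (v : V) : (nb G B v).card ≤ 4 := by
  refine le_trans ?_ (hdeg v)
  rw [← Set.ncard_coe_finset]
  exact Set.ncard_le_ncard (fun u hu => (mem_nb.1 hu).2) (Set.toFinite _)

theorem card_nb1 (hdeg : ∀ v, (G.neighborSet v).ncard ≤ 4) {v : V} {j : Cmp G B}
    (h : v ∈ nset G B j) : (nb G B v).card ≤ 3 := by
  classical
  obtain ⟨_, c, hc, hadj⟩ := (mem_nset B).1 h
  have hcB : c ∉ nb G B v := fun h => ((mem_cset B).1 hc).1 (mem_nb.1 h).1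
  have h1 : (insert c (nb G B v)).card ≤ 4 := by
    refine le_trans ?_ (hdeg v)
    rw [← Set.ncard_coe_finset]
    refine Set.ncard_le_ncard (fun u hu => ?_) (Set.toFinite _)
    rcases Finset.mem_insert.1 (Finset.mem_coe.1 hu) with rfl | hu
    · exact hadj
    · exact (mem_nb.1 hu).2
  rw [Finset.card_insert_of_notMem hcB] at h1
  omega

theorem card_nb2 (hdeg : ∀ v, (G.neighborSet v).ncard ≤ 4) {v : V} {j j' : Cmp G B} (hj : j ≠ j')
    (h : v ∈ nset G B j) (h' : v ∈ nset G B j') : (nb G B v).card ≤ 2 := by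
  classical
  obtain ⟨_, c, hc, hadj⟩ := (mem_nset B).1 h
  obtain ⟨_, c', hc', hadj'⟩ := (mem_nset B).1 h'
  have hcB : c ∉ nb G B v := fun h => ((mem_cset B).1 hc).1 (mem_nb.1 h).1
  have hcB' : c' ∉ insert c (nb G B v) := by
    intro h
    rcases Finset.mem_insert.1 h with rfl | h
    · obtain ⟨h1, h2⟩ := (mem_cset B).1 hc
      obtain ⟨h3, h4⟩ := (mem_cset B).1 hc'
      exact hj (by rw [← h2, ← h4])
    · exact ((mem_cset B).1 hc').1 (mem_nb.1 h).1
  have h1 : (insert c' (insert c (nb G B v))).card ≤ 4 := by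
    refine le_trans ?_ (hdeg v)
    rw [← Set.ncard_coe_finset]
    refine Set.ncard_le_ncard (fun u hu => ?_) (Set.toFinite _)
    rcases Finset.mem_insert.1 (Finset.mem_coe.1 hu) with rfl | hu
    · exact hadj'
    · rcases Finset.mem_insert.1 hu with rfl | hu
      · exact hadj
      · exact (mem_nb.1 hu).2
  rw [Finset.card_insert_of_notMem hcB', Finset.card_insert_of_notMem hcB] at h1
  omega

theorem main_bag (hdeg : ∀ v, (G.neighborSet v).ncard ≤ 4) {F : Set (Finset V)}
    (hF : IsTDF G F) (hB : B ∈ F) {k : ℕ} (hk : ∀ B' ∈ F, B'.card ≤ k)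
    (hmin : ∀ F', IsTDF G F' → (∀ B' ∈ F', B'.card ≤ k) → (prs F).ncard ≤ (prs F').ncard)
    (hmax : ∀ B' ∈ F, B ⊆ B' → B' = B) : HasRTD G B 9 := by
  classical
  by_cases hA : ∃ v ∈ B, ∀ j, v ∉ nset G B j
  · obtain ⟨v, hv, hvj⟩ := hA
    have hsub : B ⊆ insert v (nb G B v) := by
      intro w hw
      rcases modify hF hB hk hmin hv none (fun j hj => by
        cases j with
        | none => rfl
        | some j => exact absurd hj (hvj j)) hw with h | h | h
      · exact absurd h (Finset.notMem_empty _)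
      · exact Finset.mem_insert.2 (Or.inl h)
      · exact Finset.mem_insert.2 (Or.inr (mem_nb.2 ⟨hw, h⟩))
    have h1 := (Finset.card_le_card hsub).trans (Finset.card_insert_le _ _)
    have h2 := card_nb (B := B) hdeg v
    exact (hasRTD_single G B).mono (by omega)
  · push Not at hA
    let P : Finset V := B.filter fun v => ∃ j, v ∈ nset G B j ∧ ∀ j', v ∈ nset G B j' → j' = j
    have hP : ∀ v, v ∈ P ↔ v ∈ B ∧ ∃ j, v ∈ nset G B j ∧ ∀ j', v ∈ nset G B j' → j' = j := by
      intro v; simp [P]
    -- all of `B` outside the neighbourhood is adjacent to `v`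
    have hfar : ∀ v ∈ B, ∀ j, v ∈ nset G B j → (∀ j', v ∈ nset G B j' → j' = j) →
        ∀ w ∈ B, w ∉ nset G B j → G.Adj v w := by
      intro v hv j hj hu w hw hwj
      rcases modify hF hB hk hmin hv (some j) (fun j' hj' => by
        cases j' with
        | none => exact absurd hj' (Finset.notMem_empty _)
        | some j' => rw [hu j' hj']) hw with h | h | h
      · exact absurd h hwj
      · subst h; exact absurd hj hwj
      · exact h
    have hfar' : ∀ v ∈ B, ∀ j, v ∈ nset G B j → (∀ j', v ∈ nset G B j' → j' = j) →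
        (B.filter fun w => w ∉ nset G B j).card ≤ 3 := by
      intro v hv j hj hu
      refine (Finset.card_le_card ?_).trans (card_nb1 (B := B) hdeg hj)
      intro w hw
      have hw' := Finset.mem_filter.1 hw
      exact mem_nb.2 ⟨hw'.1, hfar v hv j hj hu w hw'.1 hw'.2⟩
    have hPcard : P.card ≤ 6 := by
      by_cases hPe : P = ∅
      · rw [hPe]; simp
      · obtain ⟨v, hv⟩ := Finset.nonempty_iff_ne_empty.2 hPe
        obtain ⟨hvB, j, hj, hu⟩ := (hP v).1 hv
        have h1 : (P.filter fun w => w ∉ nset G B j).card ≤ 3 := by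
          refine (Finset.card_le_card ?_).trans (hfar' v hvB j hj hu)
          intro w hw
          have hw' := Finset.mem_filter.1 hw
          exact Finset.mem_filter.2 ⟨((hP w).1 hw'.1).1, hw'.2⟩
        have huniq : ∀ w ∈ P, w ∈ nset G B j → ∀ j', w ∈ nset G B j' → j' = j := by
          intro w hw hwj j' hj'
          obtain ⟨_, j₁, h2, h3⟩ := (hP w).1 hw
          rw [h3 j' hj', h3 j hwj]
        have h2 : (P.filter fun w => w ∈ nset G B j).card ≤ 3 := by
          by_cases he : (P.filter fun w => w ∉ nset G B j) = ∅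
          · obtain ⟨w, hw, hwj⟩ := not_full hF hB hmax j
            obtain ⟨j', hj'⟩ := hA w hw
            refine (Finset.card_le_card ?_).trans (card_nb1 (B := B) hdeg hj')
            intro u hu'
            obtain ⟨hu1, hu2⟩ := Finset.mem_filter.1 hu'
            have huB := ((hP u).1 hu1).1
            exact mem_nb.2 ⟨huB, (hfar u huB j hu2 (huniq u hu1 hu2) w hw hwj).symm⟩
          · obtain ⟨u, hu'⟩ := Finset.nonempty_iff_ne_empty.2 he
            obtain ⟨hu1, hu2⟩ := Finset.mem_filter.1 hu'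
            obtain ⟨huB, j', hj', huu⟩ := (hP u).1 hu1
            refine (Finset.card_le_card ?_).trans (hfar' u huB j' hj' huu)
            intro w hw
            obtain ⟨hw1, hw2⟩ := Finset.mem_filter.1 hw
            refine Finset.mem_filter.2 ⟨((hP w).1 hw1).1, fun h => ?_⟩
            have h3 := huniq w hw1 hw2 j' h
            rw [h3] at hj'
            exact hu2 hj'
        have h3 := Finset.card_filter_add_card_filter_not (s := P) (fun w => w ∈ nset G B j)
        omega
    have hlow : HasRTD G (B \ P) 3 := by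
      refine hasRTD_low _ G (B \ P) rfl fun v hv => ?_
      obtain ⟨hvB, hvP⟩ := Finset.mem_sdiff.1 hv
      obtain ⟨j, hj⟩ := hA v hvB
      obtain ⟨j', hj', hne⟩ : ∃ j', v ∈ nset G B j' ∧ j ≠ j' := by
        by_contra hcon
        push Not at hcon
        exact hvP ((hP v).2 ⟨hvB, j, hj, fun j' h => (hcon j' h).symm⟩)
      refine (Finset.card_le_card ?_).trans (card_nb2 (B := B) hdeg hne hj hj')
      intro w hw
      obtain ⟨hw1, hw2⟩ := Finset.mem_filter.1 hw
      exact mem_nb.2 ⟨(Finset.mem_sdiff.1 hw1).1, hw2⟩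
    have h1 := hlow.add P
    have h2 : (B \ P) ∪ P = B := by
      apply Finset.sdiff_union_of_subset
      intro v hv
      exact ((hP v).1 hv).1
    rw [h2] at h1
    exact h1.mono (by omega)

theorem bag_card_le (D : TreeDecomp G) (x : D.ι) : (D.bag x).card ≤ D.width + 1 := by
  have := D.fin
  have h := le_ciSup (f := fun x => (D.bag x).card) (Set.finite_range _).bddAbove x
  unfold TreeDecomp.width
  omega

theorem width_le {V : Type} {G : SimpleGraph V} (D : TreeDecomp G) {k : ℕ}
    (h : ∀ x, (D.bag x).card ≤ k + 1) : D.width ≤ k := by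
  have : Nonempty D.ι := D.isTree.connected.nonempty
  have h1 : (⨆ x, (D.bag x).card) ≤ k + 1 := ciSup_le h
  unfold TreeDecomp.width
  omega

theorem treewidth_le {V : Type} {G : SimpleGraph V} (D : TreeDecomp G) : treewidth G ≤ D.width :=
  Nat.sInf_le ⟨D, rfl⟩

theorem treewidth_induce_le {k : ℕ} (h : HasRTD G B (k + 1)) :
    treewidth (G.induce (B : Set V)) ≤ k := by
  classical
  obtain ⟨D, hD⟩ := h
  have := D.fin
  let bag : D.ι → Finset (B : Set V) := fun z => Finset.univ.filter fun s => s.1 ∈ D.bag z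
  have hbag : ∀ z s, s ∈ bag z ↔ s.1 ∈ D.bag z := by simp [bag]
  let D' : TreeDecomp (G.induce (B : Set V)) :=
    { ι := D.ι
      fin := D.fin
      T := D.R.graph
      isTree := D.R.isTree
      bag := bag
      edge_mem := by
        intro u v h
        obtain ⟨z, h1, h2⟩ := D.edge u.1 u.2 v.1 v.2 h
        exact ⟨z, (hbag z u).2 h1, (hbag z v).2 h2⟩
      subtree := by
        intro v
        have e : {x | v ∈ bag x} = {x | v.1 ∈ D.bag x} := by
          ext x
          exact hbag x v
        rw [e]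
        refine D.R.connected_of_top ?_ (D.top v.1)
        obtain ⟨z, hz⟩ := D.cover v.1 v.2
        exact ⟨z, hz⟩ }
  refine (treewidth_le D').trans (width_le D' fun z => ?_)
  refine le_trans ?_ (hD z)
  refine Finset.card_le_card_of_injOn Subtype.val (fun s hs => ?_) (fun a _ b _ h => Subtype.ext h)
  exact (hbag z s).1 hs

/-- Every graph of maximum degree at most 4 has an optimal tree-decomposition all of whose bags
have treewidth at most 8. -/
theorem main (hdeg : ∀ v, (G.neighborSet v).ncard ≤ 4) :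
    ∃ D : TreeDecomp G, D.width = treewidth G ∧
      ∀ x, treewidth (G.induce (D.bag x : Set V)) ≤ 8 := by
  classical
  have hne : {k | ∃ D : TreeDecomp G, D.width = k}.Nonempty := by
    obtain ⟨D, _⟩ := hasRTD_single G (Finset.univ : Finset V)
    obtain ⟨D', _⟩ := isTDF_of_rtd D
    exact ⟨_, D', rfl⟩
  obtain ⟨D₀, hD₀⟩ : ∃ D : TreeDecomp G, D.width = treewidth G := Nat.sInf_mem hne
  set k := treewidth G + 1 with hk
  have hex : ∃ n F, IsTDF G F ∧ (∀ B' ∈ F, B'.card ≤ k) ∧ (prs F).ncard = n := by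
    refine ⟨_, Set.range D₀.bag, ⟨D₀, rfl⟩, ?_, rfl⟩
    rintro _ ⟨x, rfl⟩
    have := bag_card_le D₀ x
    omega
  obtain ⟨F, hF, hFk, hFn⟩ := Nat.find_spec hex
  have hmin : ∀ F', IsTDF G F' → (∀ B' ∈ F', B'.card ≤ k) → (prs F).ncard ≤ (prs F').ncard := by
    intro F' h1 h2
    rw [hFn]
    exact Nat.find_min' hex ⟨F', h1, h2, rfl⟩
  obtain ⟨D, hD⟩ := hF
  have hF : IsTDF G F := ⟨D, hD⟩
  refine ⟨D, le_antisymm (width_le D fun x => hFk _ (by rw [← hD]; exact ⟨x, rfl⟩))
    (treewidth_le D), fun x => ?_⟩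
  have hx : D.bag x ∈ F := by rw [← hD]; exact ⟨x, rfl⟩
  obtain ⟨B, hxB, hBmax⟩ := (Set.toFinite F).exists_le_maximal hx
  have h1 := main_bag hdeg hF hBmax.prop hFk hmin fun B' hB' h =>
    (hBmax.eq_of_le hB' h).symm
  exact treewidth_induce_le (k := 8) (h1.restrict hxB)

end

end Pool.Agent.TW81
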