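import Pool.Agent.Lib_MP_888b70_co.Star
import Mathlib.Combinatorics.SimpleGraph.Connectivity.Connected

/-!
# Tree-decompositions with few pairs of vertices in common bags
-/

set_option linter.unusedSectionVars false
set_option linter.unusedVariables false

namespace Pool.Agent.TW81

/-- Pairs of vertices in a common bag. -/
def prs {V : Type} (F : Set (Finset V)) : Set (V × V) := {p | ∃ B ∈ F, p.1 ∈ B ∧ p.2 ∈ B}

/-- The families of bags of tree-decompositions. -/
def IsTDF {V : Type} (G : SimpleGraph V) (F : Set (Finset V)) : Prop :=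
  ∃ D : TreeDecomp G, Set.range D.bag = F

/-- Going up inside a set. -/
theorem RT.exists_top' {ι : Type} (R : RT ι) {S : Set ι} (h : R.TopU S) {t z : ι} (ht : t ∈ S)
    (htop : t = R.root ∨ R.par t ∉ S) (hz : z ∈ S) : Relation.ReflTransGen
      (fun a b => (a ∈ S ∧ b ∈ S) ∧ a ≠ R.root ∧ R.par a = b) z t := by
  obtain ⟨t', h1, h2, h3⟩ := R.exists_top S z hz
  rw [h t ht t' h1 htop h2]
  exact h3

theorem RT.chain_up {ι : Type} {R : RT ι} {S : Set ι} {z t : ι} (h : Relation.ReflTransGen
      (fun a b => (a ∈ S ∧ b ∈ S) ∧ a ≠ R.root ∧ R.par a = b) z t) : R.Up z t :=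
  Relation.ReflTransGen.mono (fun _ _ h => h.2) _ _ h

theorem RT.chain_cases {ι : Type} {R : RT ι} {S : Set ι} {z t y : ι} (h : Relation.ReflTransGen
      (fun a b => (a ∈ S ∧ b ∈ S) ∧ a ≠ R.root ∧ R.par a = b) z t) (hy : R.Up z y) :
    R.Up t y ∨ (y ∈ S ∧ y ≠ R.root ∧ R.par y ∈ S) := by
  induction h using Relation.ReflTransGen.head_induction_on with
  | refl => exact Or.inl hy
  | head h1 h2 ih =>
    obtain ⟨⟨h3, h4⟩, h5, h6⟩ := h1
    subst h6
    rcases hy.cases with h7 | ⟨_, h7⟩
    · subst h7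
      exact Or.inr ⟨h3, h5, h4⟩
    · exact ih h7

variable {V : Type} {G : SimpleGraph V}

theorem exists_rtd [Fintype V] {F : Set (Finset V)} (hF : IsTDF G F) {B : Finset V} (hB : B ∈ F) :
    ∃ D : RTD G Finset.univ, D.bag D.R.root = B ∧ Set.range D.bag = F := by
  obtain ⟨D, rfl⟩ := hF
  obtain ⟨x, rfl⟩ := hB
  have := D.fin
  obtain ⟨R, hr, hg⟩ := exists_root D.T D.isTree x
  refine ⟨⟨D.ι, D.fin, R, D.bag, fun _ => Finset.subset_univ _, fun v _ => ?_,
    fun u _ v _ h => D.edge_mem u v h, fun v => ?_⟩, ?_, rfl⟩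
  · obtain ⟨z⟩ := (D.subtree v).nonempty
    exact ⟨z.1, z.2⟩
  · apply R.top_of_connected
    rw [hg]
    exact D.subtree v
  · exact congrArg D.bag hr

theorem isTDF_of_rtd [Fintype V] (D : RTD G Finset.univ) : IsTDF G (Set.range D.bag) := by
  have := D.fin
  refine ⟨⟨D.ι, D.fin, D.R.graph, D.R.isTree, D.bag, fun u v h =>
    D.edge u (Finset.mem_univ _) v (Finset.mem_univ _) h, fun v => ?_⟩, rfl⟩
  apply D.R.connected_of_top ?_ (D.top v)
  obtain ⟨z, hz⟩ := D.cover v (Finset.mem_univ _)
  exact ⟨z, hz⟩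

section

variable [Fintype V] (B : Finset V)

/-- The components of `G - B`. -/
abbrev Cmp (G : SimpleGraph V) (B : Finset V) : Type :=
  (G.induce {v | v ∉ B}).ConnectedComponent

open Classical in
/-- The vertices of a component of `G - B`. -/
noncomputable def cset (G : SimpleGraph V) (B : Finset V) (j : Cmp G B) : Finset V :=
  Finset.univ.filter fun v => ∃ h : v ∉ B, (G.induce {v | v ∉ B}).connectedComponentMk ⟨v, h⟩ = j

open Classical in
/-- The neighbourhood of a component of `G - B`. -/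
noncomputable def nset (G : SimpleGraph V) (B : Finset V) (j : Cmp G B) : Finset V :=
  B.filter fun b => ∃ c ∈ cset G B j, G.Adj b c

theorem mem_cset {j : Cmp G B} {v : V} : v ∈ cset G B j ↔
    ∃ h : v ∉ B, (G.induce {v | v ∉ B}).connectedComponentMk ⟨v, h⟩ = j := by
  simp [cset]

theorem mem_nset {j : Cmp G B} {v : V} : v ∈ nset G B j ↔
    v ∈ B ∧ ∃ c ∈ cset G B j, G.Adj v c := by
  simp [nset]

theorem cset_adj {j : Cmp G B} {u v : V} (hu : u ∈ cset G B j) (h : G.Adj u v) (hv : v ∉ B) :
    v ∈ cset G B j := by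
  rw [mem_cset] at *
  obtain ⟨h1, h2⟩ := hu
  refine ⟨hv, ?_⟩
  rw [← h2, SimpleGraph.ConnectedComponent.eq]
  exact SimpleGraph.Adj.reachable h.symm

variable {B}

/-- No component of `G - B` is adjacent to all of `B`, for a maximal bag `B`. -/
theorem not_full {F : Set (Finset V)} (hF : IsTDF G F) (hB : B ∈ F)
    (hmax : ∀ B' ∈ F, B ⊆ B' → B' = B) (j : Cmp G B) : ∃ w ∈ B, w ∉ nset G B j := by
  classical
  by_contra hcon
  push Not at hcon
  obtain ⟨D, hroot, hrange⟩ := exists_rtd hF hB
  have := D.fin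
  have := Fintype.ofFinite D.ι
  -- the nodes meeting the component
  obtain ⟨c₀, hc₀⟩ : ∃ c, c ∈ cset G B j := by
    induction j using SimpleGraph.ConnectedComponent.ind with
    | _ c => exact ⟨c.1, (mem_cset B).2 ⟨c.2, rfl⟩⟩
  let Z : Finset D.ι := Finset.univ.filter fun z => ∃ c ∈ cset G B j, c ∈ D.bag z
  have hZ : ∀ z, z ∈ Z ↔ ∃ c ∈ cset G B j, c ∈ D.bag z := by simp [Z]
  have hne : Z.Nonempty := by
    obtain ⟨z, hz⟩ := D.cover c₀ (Finset.mem_univ _)
    exact ⟨z, (hZ z).2 ⟨c₀, hc₀, hz⟩⟩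
  obtain ⟨y, hy, hymin⟩ := Finset.exists_min_image Z D.R.rk hne
  obtain ⟨c₁, hc₁, hy₁⟩ := (hZ y).1 hy
  have hpar : y ≠ D.R.root → ∀ c ∈ cset G B j, c ∉ D.bag (D.R.par y) := by
    intro h c hc hcy
    have h1 := hymin _ ((hZ _).2 ⟨c, hc, hcy⟩)
    have h2 := D.R.lt y h
    omega
  -- all nodes meeting the component are below `y`
  have hQ₁ : ∀ z, c₁ ∈ D.bag z → D.R.Up z y := by
    intro z hz
    refine RT.chain_up (D.R.exists_top' (D.top c₁) hy₁ ?_ hz)
    by_cases h : y = D.R.root
    · exact Or.inl h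
    · exact Or.inr (hpar h c₁ hc₁)
  have hstep : ∀ c ∈ cset G B j, ∀ c' ∈ cset G B j, G.Adj c c' → (∀ z, c ∈ D.bag z → D.R.Up z y) →
      ∀ z, c' ∈ D.bag z → D.R.Up z y := by
    intro c hc c' hc' hadj hQ z hz
    obtain ⟨z₁, h1, h2⟩ := D.edge c (Finset.mem_univ _) c' (Finset.mem_univ _) hadj
    obtain ⟨t, t1, t2, t3⟩ := D.R.exists_top {z | c' ∈ D.bag z} z hz
    have h3 := D.R.exists_top' (D.top c') t1 t2 (z := z₁) h2
    rcases RT.chain_cases h3 (hQ z₁ h1) with h4 | ⟨h4, h5, h6⟩
    · exact (RT.chain_up t3).trans h4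
    · exact absurd h6 (hpar h5 c' hc')
  have hQ : ∀ c ∈ cset G B j, ∀ z, c ∈ D.bag z → D.R.Up z y := by
    intro c hc
    obtain ⟨k1, k2⟩ := (mem_cset B).1 hc₁
    obtain ⟨l1, l2⟩ := (mem_cset B).1 hc
    have hr : (G.induce {v | v ∉ B}).Reachable ⟨c₁, k1⟩ ⟨c, l1⟩ := by
      rw [← SimpleGraph.ConnectedComponent.eq, k2, l2]
    obtain ⟨p⟩ := hr
    have aux : ∀ (a b : {v // v ∈ {v | v ∉ B}}), (G.induce {v | v ∉ B}).Walk a b →
        a.1 ∈ cset G B j → (∀ z, a.1 ∈ D.bag z → D.R.Up z y) →
          ∀ z, b.1 ∈ D.bag z → D.R.Up z y := by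
      intro a b p
      induction p with
      | nil => exact fun _ h => h
      | @cons u v w hadj p ih =>
        intro hu hq
        have hadj' : G.Adj u.1 v.1 := hadj
        have hv := cset_adj B hu hadj' v.2
        exact ih hv (hstep _ hu _ hv hadj' hq)
    exact aux _ _ p hc₁ hQ₁
  -- so `B` is contained in the bag of `y`
  have hsub : B ⊆ D.bag y := by
    intro b hb
    obtain ⟨_, c, hc, hadj⟩ := (mem_nset B).1 (hcon b hb)
    obtain ⟨z, h1, h2⟩ := D.edge b (Finset.mem_univ _) c (Finset.mem_univ _) hadj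
    have hup := hQ c hc z h2
    have hbr : b ∈ D.bag D.R.root := by rw [hroot]; exact hb
    have aux : ∀ w z', D.R.Up w z' → b ∈ D.bag w → b ∈ D.bag z' := by
      intro w z' h hw
      induction h with
      | refl => exact hw
      | tail _ h2 ih =>
        rcases D.par_mem hbr ih with h3 | h3
        · rw [← h2.2]; exact h3
        · exact absurd h3 h2.1
    exact aux _ _ hup h1
  have h1 := hmax (D.bag y) (by rw [← hrange]; exact ⟨y, rfl⟩) hsub
  obtain ⟨k, _⟩ := (mem_cset B).1 hc₁
  apply k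
  rw [← h1]
  exact hy₁

/-- The sets `C`, `N` with an extra empty index. -/
noncomputable def cset' (G : SimpleGraph V) (B : Finset V) : Option (Cmp G B) → Finset V
  | none => ∅
  | some j => cset G B j
noncomputable def nset' (G : SimpleGraph V) (B : Finset V) : Option (Cmp G B) → Finset V
  | none => ∅
  | some j => nset G B j

/-- The modification of a tree-decomposition at a vertex `v` of `B`. -/
theorem modify {F : Set (Finset V)} (hF : IsTDF G F) (hB : B ∈ F) {k : ℕ}
    (hk : ∀ B' ∈ F, B'.card ≤ k)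
    (hmin : ∀ F', IsTDF G F' → (∀ B' ∈ F', B'.card ≤ k) → (prs F).ncard ≤ (prs F').ncard)
    {v : V} (hv : v ∈ B) (i : Option (Cmp G B)) (hi : ∀ j, v ∈ nset' G B j → j = i)
    {w : V} (hw : w ∈ B) : w ∈ nset' G B i ∨ w = v ∨ G.Adj v w := by
  classical
  by_contra hcon
  push Not at hcon
  obtain ⟨hw1, hw2, hw3⟩ := hcon
  obtain ⟨D, hroot, hrange⟩ := exists_rtd hF hB
  have := D.fin
  let E : Option (Cmp G B) → Finset V := fun j =>
    if j = i then nset' G B i ∪ insert v (B.filter fun u => G.Adj v u) else nset' G B j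
  let K : Finset V := B.erase v
  have hN : ∀ j, nset' G B j ⊆ B := by
    intro j
    cases j with
    | none => exact Finset.empty_subset _
    | some j => exact fun u hu => ((mem_nset B).1 hu).1
  have hC : ∀ j, ∀ u ∈ cset' G B j, u ∉ B := by
    intro j u hu
    cases j with
    | none => exact absurd hu (Finset.notMem_empty _)
    | some j => exact ((mem_cset B).1 hu).1
  have c3 : ∀ j j', ∀ u ∈ cset' G B j, u ∈ cset' G B j' → j = j' := by
    intro j j' u hu hu'
    cases j with
    | none => exact absurd hu (Finset.notMem_empty _)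
    | some j =>
      cases j' with
      | none => exact absurd hu' (Finset.notMem_empty _)
      | some j' =>
        obtain ⟨h1, h2⟩ := (mem_cset B).1 hu
        obtain ⟨h3, h4⟩ := (mem_cset B).1 hu'
        rw [← h2, ← h4]
  have c4 : ∀ j, ∀ u ∈ cset' G B j, ∀ u' ∈ (Finset.univ : Finset V), G.Adj u u' →
      u' ∈ cset' G B j ∨ u' ∈ nset' G B j := by
    intro j u hu u' _ h
    cases j with
    | none => exact absurd hu (Finset.notMem_empty _)
    | some j =>
      by_cases hb : u' ∈ B
      · exact Or.inr ((mem_nset B).2 ⟨hb, u, hu, h.symm⟩)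
      · exact Or.inl (cset_adj B hu h hb)
  have hE : ∀ j, E j ⊆ B := by
    intro j
    simp only [E]
    split
    · refine Finset.union_subset (hN _) (Finset.insert_subset hv (Finset.filter_subset _ _))
    · exact hN _
  have hNE : ∀ j, nset' G B j ⊆ E j := by
    intro j
    simp only [E]
    split
    · rename_i h
      rw [h]
      exact Finset.subset_union_left
    · exact subset_rfl
  have hEi : ∀ u ∈ B, u = v ∨ G.Adj v u → u ∈ E i := by
    intro u hu h
    simp only [E, if_true]
    apply Finset.mem_union_right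
    rcases h with h | h
    · rw [h]; exact Finset.mem_insert_self _ _
    · exact Finset.mem_insert_of_mem (Finset.mem_filter.2 ⟨hu, h⟩)
  have hvE : ∀ j, v ∈ E j → j = i := by
    intro j hj
    by_contra hne
    simp only [E, if_neg hne] at hj
    exact hne (hi j hj)
  let D' := D.star (J := Option (Cmp G B)) (cset' G B) (nset' G B) E K
    (fun u _ hu => ⟨some ((G.induce {v | v ∉ B}).connectedComponentMk ⟨u, by rw [hroot] at hu; exact hu⟩),
      (mem_cset B).2 ⟨by rw [hroot] at hu; exact hu, rfl⟩⟩)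
    (fun j u hu => ⟨Finset.mem_univ _, by rw [hroot]; exact hC j u hu⟩) c3 c4 hNE
    (fun j => by rw [hroot]; exact hE j) (by rw [hroot]; exact Finset.erase_subset _ _)
    (by
      intro b hb hbK
      rw [hroot] at hb
      have hbv : b = v := by
        by_contra h
        exact hbK (Finset.mem_erase.2 ⟨h, hb⟩)
      subst hbv
      exact ⟨i, hEi b hb (Or.inl rfl), hvE⟩)
    (by
      intro u hu u' hu' h
      rw [hroot] at hu hu'
      by_cases h1 : u = v
      · right
        subst h1
        exact ⟨i, hEi u hu (Or.inl rfl), hEi u' hu' (Or.inr h)⟩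
      · by_cases h2 : u' = v
        · right
          subst h2
          exact ⟨i, hEi u hu (Or.inr h.symm), hEi u' hu' (Or.inl rfl)⟩
        · left
          exact ⟨Finset.mem_erase.2 ⟨h1, hu⟩, Finset.mem_erase.2 ⟨h2, hu'⟩⟩)
  have hD'bag : ∀ z, D'.bag z = D.starBag (cset' G B) (nset' G B) E K z := fun _ => rfl
  have hsub : ∀ B' ∈ Set.range D'.bag, ∃ B'' ∈ F, B' ⊆ B'' := by
    rintro B' ⟨z, rfl⟩
    rw [hD'bag]
    match z with
    | none => exact ⟨B, hB, Finset.erase_subset _ _⟩
    | some (.inl j) => exact ⟨B, hB, hE j⟩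
    | some (.inr (j, z)) => exact ⟨D.bag z, by rw [← hrange]; exact ⟨z, rfl⟩,
        Finset.inter_subset_left⟩
  have hF' := isTDF_of_rtd D'
  have h1 := hmin _ hF' (by
    intro B' hB'
    obtain ⟨B'', h2, h3⟩ := hsub B' hB'
    exact (Finset.card_le_card h3).trans (hk B'' h2))
  have h2 : prs (Set.range D'.bag) ⊂ prs F := by
    constructor
    · rintro p ⟨B', hB', h3, h4⟩
      obtain ⟨B'', h5, h6⟩ := hsub B' hB'
      exact ⟨B'', h5, h6 h3, h6 h4⟩
    · intro hcon
      have h3 : (v, w) ∈ prs (Set.range D'.bag) := hcon ⟨B, hB, hv, hw⟩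
      obtain ⟨B', ⟨z, rfl⟩, h4, h5⟩ := h3
      simp only at h4 h5
      rw [hD'bag] at h4 h5
      match z, h4, h5 with
      | none, h4, _ => exact absurd rfl (Finset.mem_erase.1 h4).1
      | some (.inl j), h4, h5 =>
        have hj := hvE j h4
        subst hj
        have h5' : w ∈ E j := h5
        simp only [E, if_true] at h5'
        rcases Finset.mem_union.1 h5' with h6 | h6
        · exact hw1 h6
        · rcases Finset.mem_insert.1 h6 with h7 | h7
          · exact hw2 h7
          · exact hw3 (Finset.mem_filter.1 h7).2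
      | some (.inr (j, z)), h4, h5 =>
        have h6 := Finset.mem_inter.1 h4
        have h7 := Finset.mem_inter.1 h5
        have h8 : v ∈ nset' G B j := by
          rcases Finset.mem_union.1 h6.2 with h | h
          · exact absurd hv (hC j v h)
          · exact h
        have h9 : w ∈ nset' G B j := by
          rcases Finset.mem_union.1 h7.2 with h | h
          · exact absurd hw (hC j w h)
          · exact h
        rw [hi j h8] at h9
        exact hw1 h9
  have h3 := Set.ncard_lt_ncard h2 (Set.toFinite _)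
  omega

end

end Pool.Agent.TW81
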