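import Pool.Agent.Lib_MP_888b70_co.Tree
import Pool.Agent.Lib_MP_888b70_co.Defs
import Mathlib.Data.Fintype.Option
import Mathlib.Data.Finite.Sum
import Mathlib.Data.Finite.Prod
import Mathlib.Data.Fintype.Sum

/-!
# Rooted tree-decompositions and their modifications
-/

set_option linter.unusedSectionVars false
set_option linter.unusedVariables false

namespace Pool.Agent.TW81

/-- Rooted tree-decompositions of `G[S]`. -/
structure RTD {V : Type} (G : SimpleGraph V) (S : Finset V) where
  ι : Type
  fin : Finite ι
  R : RT ι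
  bag : ι → Finset V
  sub : ∀ z, bag z ⊆ S
  cover : ∀ v ∈ S, ∃ z, v ∈ bag z
  edge : ∀ u ∈ S, ∀ v ∈ S, G.Adj u v → ∃ z, u ∈ bag z ∧ v ∈ bag z
  top : ∀ v, R.TopU {z | v ∈ bag z}

section

variable {V : Type} [DecidableEq V] {G : SimpleGraph V} {S : Finset V} (D : RTD G S)
variable {J : Type} [Finite J] [DecidableEq D.ι] (C N E : J → Finset V) (K : Finset V)

/-- If the root contains `v`, then the nodes containing `v` are closed under parents. -/
theorem RTD.par_mem {v : V} {z : D.ι} (hr : v ∈ D.bag D.R.root) (hz : v ∈ D.bag z) :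
    v ∈ D.bag (D.R.par z) ∨ z = D.R.root := by
  by_contra h
  push Not at h
  exact h.2 (D.top v z hz D.R.root hr (Or.inr h.1) (Or.inl rfl))

/-- The bags of the star. -/
def RTD.starBag : Option (J ⊕ J × D.ι) → Finset V
  | none => K
  | some (.inl j) => E j
  | some (.inr (j, z)) => D.bag z ∩ (C j ∪ N j)

/-- The tree of the star. -/
def RTD.starRT : RT (Option (J ⊕ J × D.ι)) where
  root := none
  par
    | none => none
    | some (.inl _) => none
    | some (.inr (j, z)) => if z = D.R.root then some (.inl j) else some (.inr (j, D.R.par z))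
  rk
    | none => 0
    | some (.inl _) => 1
    | some (.inr (_, z)) => 2 + D.R.rk z
  lt z hz := by
    match z, hz with
    | none, hz => exact absurd rfl hz
    | some (.inl j), _ => simp
    | some (.inr (j, z)), _ =>
      by_cases h : z = D.R.root
      · simp only [h, if_true]
        omega
      · simp only [h, if_false]
        have := D.R.lt z h
        omega

/-- The star of a rooted tree-decomposition. -/
def RTD.star
    (c1 : ∀ v ∈ S, v ∉ D.bag D.R.root → ∃ j, v ∈ C j)
    (c2 : ∀ j, ∀ v ∈ C j, v ∈ S ∧ v ∉ D.bag D.R.root)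
    (c3 : ∀ j j', ∀ v ∈ C j, v ∈ C j' → j = j')
    (c4 : ∀ j, ∀ u ∈ C j, ∀ v ∈ S, G.Adj u v → v ∈ C j ∨ v ∈ N j)
    (c5 : ∀ j, N j ⊆ E j) (c6 : ∀ j, E j ⊆ D.bag D.R.root) (c7 : K ⊆ D.bag D.R.root)
    (c8 : ∀ b ∈ D.bag D.R.root, b ∉ K → ∃ j, b ∈ E j ∧ ∀ j', b ∈ E j' → j' = j)
    (c9 : ∀ u ∈ D.bag D.R.root, ∀ v ∈ D.bag D.R.root, G.Adj u v →
      (u ∈ K ∧ v ∈ K) ∨ ∃ j, u ∈ E j ∧ v ∈ E j) : RTD G S where
  ι := Option (J ⊕ J × D.ι)
  fin := by
    have := D.fin
    infer_instance
  R := D.starRT
  bag := D.starBag C N E K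
  sub z := by
    match z with
    | none => exact c7.trans (D.sub _)
    | some (.inl j) => exact (c6 j).trans (D.sub _)
    | some (.inr (j, z)) => exact Finset.inter_subset_left.trans (D.sub _)
  cover v hv := by
    by_cases hb : v ∈ D.bag D.R.root
    · by_cases hk : v ∈ K
      · exact ⟨none, hk⟩
      · obtain ⟨j, hj, _⟩ := c8 v hb hk
        exact ⟨some (.inl j), hj⟩
    · obtain ⟨j, hj⟩ := c1 v hv hb
      obtain ⟨z, hz⟩ := D.cover v hv
      exact ⟨some (.inr (j, z)), Finset.mem_inter.2 ⟨hz, Finset.mem_union_left _ hj⟩⟩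
  edge u hu v hv h := by
    have aux : ∀ u ∈ S, ∀ v ∈ S, G.Adj u v → u ∉ D.bag D.R.root →
        ∃ z, u ∈ D.starBag C N E K z ∧ v ∈ D.starBag C N E K z := by
      intro u hu v hv h hb
      obtain ⟨j, hj⟩ := c1 u hu hb
      obtain ⟨z, hz1, hz2⟩ := D.edge u hu v hv h
      refine ⟨some (.inr (j, z)), Finset.mem_inter.2 ⟨hz1, Finset.mem_union_left _ hj⟩,
        Finset.mem_inter.2 ⟨hz2, ?_⟩⟩
      rcases c4 j u hj v hv h with h | h
      · exact Finset.mem_union_left _ h
      · exact Finset.mem_union_right _ h
    by_cases hu' : u ∈ D.bag D.R.root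
    · by_cases hv' : v ∈ D.bag D.R.root
      · rcases c9 u hu' v hv' h with h | ⟨j, h⟩
        · exact ⟨none, h⟩
        · exact ⟨some (.inl j), h⟩
      · obtain ⟨z, h1, h2⟩ := aux v hv u hu h.symm hv'
        exact ⟨z, h2, h1⟩
    · exact aux u hu v hv h hu'
  top v := by
    -- nodes of the copies are not topmost if `v` lies in the root
    have hcopy : v ∈ D.bag D.R.root → ∀ j z, v ∈ D.starBag C N E K (some (.inr (j, z))) →
        ¬ ((some (.inr (j, z)) : Option (J ⊕ J × D.ι)) = D.starRT.root ∨
          D.starRT.par (some (.inr (j, z))) ∉ {z | v ∈ D.starBag C N E K z}) := by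
      intro hb j z hz
      have hz' : v ∈ D.bag z ∧ v ∈ N j := by
        have := Finset.mem_inter.1 hz
        refine ⟨this.1, ?_⟩
        rcases Finset.mem_union.1 this.2 with h | h
        · exact absurd hb (c2 j v h).2
        · exact h
      rintro (h | h)
      · exact absurd h (by simp [RTD.starRT])
      · apply h
        by_cases hr : z = D.R.root
        · simp only [RTD.starRT, hr, if_true]
          exact c5 j hz'.2
        · simp only [RTD.starRT, hr, if_false]
          rcases D.par_mem hb hz'.1 with h1 | h1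
          · exact Finset.mem_inter.2 ⟨h1, Finset.mem_union_right _ hz'.2⟩
          · exact absurd h1 hr
    by_cases hb : v ∈ D.bag D.R.root
    · by_cases hk : v ∈ K
      · have key : ∀ z : Option (J ⊕ J × D.ι), v ∈ D.starBag C N E K z →
            (z = D.starRT.root ∨ D.starRT.par z ∉ {z | v ∈ D.starBag C N E K z}) → z = none := by
          intro z hz ht
          match z, hz, ht with
          | none, _, _ => rfl
          | some (.inl j), _, ht =>
            rcases ht with ht | ht
            · exact absurd ht (by simp [RTD.starRT])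
            · exact absurd hk ht
          | some (.inr (j, z)), hz, ht => exact absurd ht (hcopy hb j z hz)
        intro z hz z' hz' h h'
        rw [key z hz h, key z' hz' h']
      · obtain ⟨j₀, hj₀, hu⟩ := c8 v hb hk
        have key : ∀ z : Option (J ⊕ J × D.ι), v ∈ D.starBag C N E K z →
            (z = D.starRT.root ∨ D.starRT.par z ∉ {z | v ∈ D.starBag C N E K z}) →
              z = some (.inl j₀) := by
          intro z hz ht
          match z, hz, ht with
          | none, hz, _ => exact absurd hz hk
          | some (.inl j), hz, _ => rw [hu j hz]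
          | some (.inr (j, z)), hz, ht => exact absurd ht (hcopy hb j z hz)
        intro z hz z' hz' h h'
        rw [key z hz h, key z' hz' h']
    · have key : ∀ z : Option (J ⊕ J × D.ι), v ∈ D.starBag C N E K z →
            (z = D.starRT.root ∨ D.starRT.par z ∉ {z | v ∈ D.starBag C N E K z}) →
              ∃ j z₀, z = some (.inr (j, z₀)) ∧ v ∈ C j ∧ v ∈ D.bag z₀ ∧
                v ∉ D.bag (D.R.par z₀) := by
          intro z hz ht
          match z, hz, ht with
          | none, hz, _ => exact absurd (c7 hz) hb
          | some (.inl j), hz, _ => exact absurd (c6 j hz) hb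
          | some (.inr (j, z)), hz, ht =>
            have hz' := Finset.mem_inter.1 hz
            have hC : v ∈ C j := by
              rcases Finset.mem_union.1 hz'.2 with h | h
              · exact h
              · exact absurd (c6 j (c5 j h)) hb
            refine ⟨j, z, rfl, hC, hz'.1, fun hp => ?_⟩
            have hr : z ≠ D.R.root := fun h => hb (h ▸ hz'.1)
            rcases ht with ht | ht
            · exact absurd ht (by simp [RTD.starRT])
            · apply ht
              simp only [RTD.starRT, hr, if_false]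
              exact Finset.mem_inter.2 ⟨hp, Finset.mem_union_left _ hC⟩
      intro z hz z' hz' h h'
      obtain ⟨j, z₀, rfl, a1, a2, a3⟩ := key z hz h
      obtain ⟨j', z₀', rfl, b1, b2, b3⟩ := key z' hz' h'
      have e := c3 j j' v a1 b1
      subst e
      rw [D.top v z₀ a2 z₀' b2 (Or.inr a3) (Or.inr b3)]

end

end Pool.Agent.TW81
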