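import Mathlib.Combinatorics.SimpleGraph.Acyclic
import Mathlib.Combinatorics.SimpleGraph.Metric

/-!
# Rooted trees
-/

set_option linter.unusedSectionVars false
set_option linter.unusedVariables false

namespace Pool.Agent.TW81

/-- Rooted trees given by a parent function and a rank. -/
structure RT (ι : Type) where
  root : ι
  par : ι → ι
  rk : ι → ℕ
  lt : ∀ z, z ≠ root → rk (par z) < rk z

variable {ι : Type} (R : RT ι)

/-- The graph of a rooted tree. -/
def RT.graph : SimpleGraph ι where
  Adj z w := (z ≠ R.root ∧ R.par z = w) ∨ (w ≠ R.root ∧ R.par w = z)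
  symm := ⟨fun z w h => h.symm⟩
  loopless := ⟨fun z h => by
    rcases h with ⟨h1, h2⟩ | ⟨h1, h2⟩ <;> exact absurd (R.lt z h1) (by rw [h2]; exact lt_irrefl _)⟩

/-- The ancestor relation. -/
def RT.Up (w z : ι) : Prop := Relation.ReflTransGen (fun w w' => w ≠ R.root ∧ R.par w = w') w z

theorem RT.Up.rk_le {R : RT ι} {w z : ι} (h : R.Up w z) : R.rk z ≤ R.rk w := by
  induction h with
  | refl => exact le_rfl
  | tail h1 h2 ih =>
    obtain ⟨h3, h4⟩ := h2
    have := R.lt _ h3
    rw [h4] at this
    omega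

theorem RT.Up.cases {R : RT ι} {w z : ι} (h : R.Up w z) : w = z ∨ (w ≠ R.root ∧ R.Up (R.par w) z) := by
  rcases Relation.ReflTransGen.cases_head h with h | ⟨c, ⟨h1, h2⟩, h3⟩
  · exact Or.inl h
  · subst h2
    exact Or.inr ⟨h1, h3⟩

theorem RT.Up.eq_of_rk {R : RT ι} {w z : ι} (h : R.Up w z) (h' : R.rk w ≤ R.rk z) : w = z := by
  rcases h.cases with h1 | ⟨h1, h2⟩
  · exact h1
  · have := h2.rk_le
    have := R.lt _ h1
    omega

theorem RT.up_root (z : ι) : R.Up z R.root := by
  induction hn : R.rk z using Nat.strong_induction_on generalizing z with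
  | _ n ih =>
    subst hn
    by_cases h : z = R.root
    · rw [h]; exact Relation.ReflTransGen.refl
    · exact Relation.ReflTransGen.head ⟨h, rfl⟩ (ih _ (R.lt z h) _ rfl)

theorem RT.Up.reachable {R : RT ι} {w z : ι} (h : R.Up w z) : R.graph.Reachable w z := by
  induction h with
  | refl => exact SimpleGraph.Reachable.refl _
  | tail h1 h2 ih =>
    refine ih.trans (SimpleGraph.Adj.reachable ?_)
    exact Or.inl h2

theorem RT.connected : R.graph.Connected := by
  have : Nonempty ι := ⟨R.root⟩
  refine SimpleGraph.Connected.mk fun u v => ?_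
  exact (R.up_root u).reachable.trans (R.up_root v).reachable.symm

/-- The edge from a node to its parent. -/
def RT.edge (z : {z : ι // z ≠ R.root}) : R.graph.edgeSet :=
  ⟨s(z.1, R.par z.1), by
    rw [SimpleGraph.mem_edgeSet]
    exact Or.inl ⟨z.2, rfl⟩⟩

theorem RT.edge_bij : Function.Bijective R.edge := by
  constructor
  · rintro ⟨z, hz⟩ ⟨w, hw⟩ h
    have h1 := congrArg Subtype.val h
    simp only [RT.edge, Sym2.eq_iff] at h1
    rcases h1 with ⟨h2, _⟩ | ⟨h2, h3⟩
    · exact Subtype.ext h2
    · have a := R.lt z hz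
      have b := R.lt w hw
      rw [h3] at a
      rw [← h2] at b
      omega
  · rintro ⟨e, he⟩
    induction e with
    | _ a b =>
      rw [SimpleGraph.mem_edgeSet] at he
      rcases he with ⟨h1, h2⟩ | ⟨h1, h2⟩
      · exact ⟨⟨a, h1⟩, Subtype.ext (by simp only [RT.edge, h2])⟩
      · exact ⟨⟨b, h1⟩, Subtype.ext (by simp only [RT.edge, h2]; exact Sym2.eq_swap)⟩

theorem RT.isTree [Finite ι] : R.graph.IsTree := by
  classical
  have := Fintype.ofFinite ι
  rw [SimpleGraph.isTree_iff_connected_and_card]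
  refine ⟨R.connected, ?_⟩
  rw [← Nat.card_congr (Equiv.ofBijective _ R.edge_bij)]
  rw [Nat.card_eq_fintype_card, Nat.card_eq_fintype_card, Fintype.card_subtype_compl,
    Fintype.card_subtype_eq]
  have : 0 < Fintype.card ι := Fintype.card_pos_iff.2 ⟨R.root⟩
  omega

/-- Topmost nodes are unique. -/
def RT.TopU (S : Set ι) : Prop := ∀ z ∈ S, ∀ z' ∈ S, (z = R.root ∨ R.par z ∉ S) →
  (z' = R.root ∨ R.par z' ∉ S) → z = z'

theorem RT.exists_top (S : Set ι) (z : ι) (hz : z ∈ S) :
    ∃ t ∈ S, (t = R.root ∨ R.par t ∉ S) ∧ Relation.ReflTransGen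
      (fun a b => (a ∈ S ∧ b ∈ S) ∧ a ≠ R.root ∧ R.par a = b) z t := by
  induction hn : R.rk z using Nat.strong_induction_on generalizing z with
  | _ n ih =>
    subst hn
    by_cases h : z = R.root ∨ R.par z ∉ S
    · exact ⟨z, hz, h, Relation.ReflTransGen.refl⟩
    · push Not at h
      obtain ⟨t, h1, h2, h3⟩ := ih _ (R.lt z h.1) _ h.2 rfl
      exact ⟨t, h1, h2, Relation.ReflTransGen.head ⟨⟨hz, h.2⟩, h.1, rfl⟩ h3⟩

theorem RT.connected_of_top {S : Set ι} (hne : S.Nonempty) (h : R.TopU S) :
    (R.graph.induce S).Connected := by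
  have hne' : Nonempty S := hne.to_subtype
  have key : ∀ (z t : ι) (hz : z ∈ S), Relation.ReflTransGen
      (fun a b => (a ∈ S ∧ b ∈ S) ∧ a ≠ R.root ∧ R.par a = b) z t →
      ∃ ht : t ∈ S, (R.graph.induce S).Reachable ⟨z, hz⟩ ⟨t, ht⟩ := by
    intro z t hz hr
    induction hr with
    | refl => exact ⟨hz, SimpleGraph.Reachable.refl _⟩
    | tail h1 h2 ih =>
      obtain ⟨ht, hr⟩ := ih
      refine ⟨h2.1.2, hr.trans (SimpleGraph.Adj.reachable ?_)⟩
      exact Or.inl h2.2
  refine SimpleGraph.Connected.mk fun u v => ?_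
  obtain ⟨t, h1, h2, h3⟩ := R.exists_top S u.1 u.2
  obtain ⟨t', h1', h2', h3'⟩ := R.exists_top S v.1 v.2
  have e := h t h1 t' h1' h2 h2'
  subst e
  obtain ⟨_, k1⟩ := key _ _ u.2 h3
  obtain ⟨_, k2⟩ := key _ _ v.2 h3'
  exact k1.trans k2.symm

theorem RT.top_of_connected {S : Set ι} (h : (R.graph.induce S).Connected) : R.TopU S := by
  have key : ∀ z ∈ S, (z = R.root ∨ R.par z ∉ S) → ∀ w ∈ S, R.Up w z := by
    intro z hz htop w hw
    have hr := h.preconnected ⟨z, hz⟩ ⟨w, hw⟩
    obtain ⟨p⟩ := hr
    have aux : ∀ (a b : S), (R.graph.induce S).Walk a b → R.Up a.1 z → R.Up b.1 z := by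
      intro a b p
      induction p with
      | nil => exact fun h => h
      | @cons u v w' hadj p ih =>
        intro hu
        apply ih
        rcases hadj with ⟨h1, h2⟩ | ⟨h1, h2⟩
        · rcases hu.cases with h3 | ⟨_, h4⟩
          · rcases htop with h5 | h5
            · exact absurd (h3.trans h5) h1
            · refine absurd v.2 ?_
              have h2' : R.par u.1 = v.1 := h2
              rw [← h2', h3]
              exact h5
          · have h2' : R.par u.1 = v.1 := h2
            rw [← h2']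
            exact h4
        · exact Relation.ReflTransGen.head ⟨h1, h2⟩ hu
    exact aux _ _ p Relation.ReflTransGen.refl
  intro z hz z' hz' h1 h2
  have a := key z hz h1 z' hz'
  have b := key z' hz' h2 z hz
  exact b.eq_of_rk a.rk_le

/-- Every finite tree can be rooted at any node. -/
theorem exists_root [Finite ι] (T : SimpleGraph ι) (hT : T.IsTree) (x : ι) :
    ∃ R : RT ι, R.root = x ∧ R.graph = T := by
  classical
  have := Fintype.ofFinite ι
  have hpar : ∀ z, ∃ w, z ≠ x → T.Adj z w ∧ T.dist x w < T.dist x z := by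
    intro z
    by_cases hz : z = x
    · exact ⟨z, fun h => absurd hz h⟩
    · obtain ⟨p, hp⟩ := hT.connected.exists_walk_length_eq_dist z x
      cases p with
      | nil => exact absurd rfl hz
      | @cons _ w _ h q =>
        refine ⟨w, fun _ => ⟨h, ?_⟩⟩
        have h1 := SimpleGraph.dist_le q
        rw [SimpleGraph.Walk.length_cons] at hp
        rw [SimpleGraph.dist_comm, SimpleGraph.dist_comm (u := x) (v := z)]
        omega
  choose par hpar using hpar
  let R : RT ι := ⟨x, par, fun z => T.dist x z, fun z hz => (hpar z hz).2⟩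
  refine ⟨R, rfl, ?_⟩
  have hle : R.graph ≤ T := by
    intro z w h
    rcases h with ⟨h1, h2⟩ | ⟨h1, h2⟩
    · have := (hpar z h1).1
      have h2' : par z = w := h2
      rw [h2'] at this
      exact this
    · have := (hpar w h1).1
      have h2' : par w = z := h2
      rw [h2'] at this
      exact this.symm
  have h1 := (SimpleGraph.isTree_iff_connected_and_card.1 hT).2
  have h2 := (SimpleGraph.isTree_iff_connected_and_card.1 R.isTree).2
  have h3 : R.graph.edgeSet = T.edgeSet := by
    apply Set.eq_of_subset_of_ncard_le (SimpleGraph.edgeSet_mono hle)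
    · rw [← Nat.card_coe_set_eq, ← Nat.card_coe_set_eq]
      omega
  exact SimpleGraph.edgeSet_injective h3

end Pool.Agent.TW81
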